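import Pool.Agent.L7h53.TH.Bas

/-!
# Project TH, part ANN: the core
-/

set_option autoImplicit false

namespace Pool.Agent.L7h53.TH

open Finset Filter Topology
open Pool.Agent.Results.MP_e16cda_ag.ThreeMomentsFail
open Pool.Agent.L7h93.TH

variable {g : ℕ}

theorem dot_neg (s : Lat g) (w : Sp g) : dot s (-w) = -dot s w := by
  unfold dot
  rw [← Finset.sum_neg_distrib]
  refine Finset.sum_congr rfl fun i _ => ?_
  rw [Pi.neg_apply]
  ring

theorem Fs_dv_neg (c : Lat g → ℂ) (w x : Sp g) : Fs (dv (-w) 1 c) x = -Fs (dv w 1 c) x := by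
  unfold Fs
  rw [← tsum_neg]
  refine tsum_congr fun s => ?_
  unfold dv
  rw [dot_neg]
  ring

/-- linearity in the direction -/
theorem Fs_dv_lin {c : Lat g → ℂ} (hc : ∀ w, Dec (dv w 1 c)) (w x : Sp g) :
    Fs (dv w 1 c) x = ∑ j, w j * Fs (dv (Pi.single j 1) 1 c) x := by
  unfold Fs
  have h1 : ∀ j : Fin g, w j * ∑' s, dv (Pi.single j 1) 1 c s *
      Complex.exp (2 * Real.pi * dot s x) = ∑' s, w j * (dv (Pi.single j 1) 1 c s *
      Complex.exp (2 * Real.pi * dot s x)) := fun j => tsum_mul_left.symm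
  simp only [h1]
  rw [← Summable.tsum_finsetSum fun j _ => (summable_Fs (hc (Pi.single j 1)) x).mul_left (w j)]
  refine tsum_congr fun s => ?_
  have h2 : dot s w = ∑ j, w j * dot s (Pi.single j 1) := by
    unfold dot
    refine Finset.sum_congr rfl fun j _ => ?_
    rw [Finset.sum_eq_single j]
    · rw [Pi.single_eq_same]
      ring
    · intro i _ hi
      rw [Pi.single_eq_of_ne hi]
      ring
    · intro h
      exact absurd (Finset.mem_univ j) h
  unfold dv
  rw [h2, pow_one, Finset.mul_sum, Finset.sum_mul, Finset.sum_mul]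
  refine Finset.sum_congr rfl fun j _ => ?_
  ring

theorem LA_Fs (h2 : S_DER) {c : Lat g → ℂ} (hc : Dec c) : LA (Fs c) :=
  fun x w t => (h2 g c hc x w t).differentiableAt

theorem LA_Fs_sub (h2 : S_DER) {c : Lat g → ℂ} (hc : Dec c) (p : Sp g) :
    LA fun x => Fs c (p - x) := by
  intro x w t
  have h := (h2 g c hc (p - x) (-w) t).differentiableAt
  have h1 : (fun t : ℂ => Fs c (p - (x + t • w))) = fun t : ℂ => Fs c (p - x + t • (-w)) := by
    funext t
    congr 1
    rw [smul_neg]
    abel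
  rw [h1]
  exact h

theorem LA_mul {f h : Sp g → ℂ} (hf : LA f) (hh : LA h) : LA fun x => f x * h x :=
  fun x w => (hf x w).mul (hh x w)

theorem LA_sub {f h : Sp g → ℂ} (hf : LA f) (hh : LA h) : LA fun x => f x - h x :=
  fun x w => (hf x w).sub (hh x w)

theorem LA_const (a : ℂ) : LA fun _ : Sp g => a := fun _ _ => differentiable_const a

theorem s_ANN (h1 : S_DEC) (h2 : S_DV) (h3 : S_DER) (h4 : S_UNI) (h5 : S_ZD) (h6 : S_QPT) :
    S_ANN := by
  intro g B hB q c₀ v hyp
  set c : Lat g → ℂ := co B 1 fun _ => 1 with hcdef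
  have hc : Dec c := h1 g B hB 1 le_rfl 0 _ qp_one
  have hcw : ∀ w, Dec (dv w 1 c) := fun w => h2 g c hc w 1
  have hcvw : ∀ w, Dec (dv w 1 (dv v 1 c)) := fun w => h2 g _ (hcw v) w 1
  set A : Sp g → ℂ := Fs c with hA
  set V : Sp g → ℂ := Fs (dv v 1 c) with hV
  have hyp' : ∀ x y z : Sp g, x + y + z = q → c₀ * (A x * A y * A z) + V x * A y * A z +
      A x * V y * A z + A x * A y * V z = 0 := hyp
  -- (2)
  have e2 : ∀ w x y z : Sp g, x + y + z = q →
      c₀ * A y * (Fs (dv w 1 c) x * A z - A x * Fs (dv w 1 c) z) +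
      (Fs (dv w 1 (dv v 1 c)) x * A y * A z - V x * A y * Fs (dv w 1 c) z) +
      V y * (Fs (dv w 1 c) x * A z - A x * Fs (dv w 1 c) z) +
      (Fs (dv w 1 c) x * A y * V z - A x * A y * Fs (dv w 1 (dv v 1 c)) z) = 0 := by
    intro w x y z hq
    have d1 : HasDerivAt (fun s : ℂ => A (x + s • w)) (Fs (dv w 1 c) x) 0 := by
      have := h3 g c hc x w 0
      rwa [zero_smul, add_zero] at this
    have d2 : HasDerivAt (fun s : ℂ => V (x + s • w)) (Fs (dv w 1 (dv v 1 c)) x) 0 := by
      have := h3 g _ (hcw v) x w 0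
      rwa [zero_smul, add_zero] at this
    have d3 : HasDerivAt (fun s : ℂ => A (z + s • (-w))) (-Fs (dv w 1 c) z) 0 := by
      have := h3 g c hc z (-w) 0
      rwa [zero_smul, add_zero, Fs_dv_neg] at this
    have d4 : HasDerivAt (fun s : ℂ => V (z + s • (-w))) (-Fs (dv w 1 (dv v 1 c)) z) 0 := by
      have := h3 g _ (hcw v) z (-w) 0
      rwa [zero_smul, add_zero, Fs_dv_neg] at this
    have d5 := ((((d1.mul_const (A y)).mul d3).const_mul c₀).add ((d2.mul_const (A y)).mul d3)).add
      ((d1.mul_const (V y)).mul d3) |>.add ((d1.mul_const (A y)).mul d4)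
    have d6 := d5.unique ((hasDerivAt_const (0 : ℂ) (0 : ℂ)).congr_of_eventuallyEq
      (Filter.Eventually.of_forall fun s => ?_))
    · simp only [zero_smul, add_zero] at d6
      linear_combination d6
    · have h7 := hyp' (x + s • w) y (z + s • (-w)) (by
        rw [smul_neg, ← hq]
        abel)
      simp only [Pi.add_apply, Pi.mul_apply]
      linear_combination h7
  -- the difference
  have e3 : ∀ w x y z : Sp g, x + y + z = q →
      A y * (A z ^ 2 * (A x * Fs (dv w 1 (dv v 1 c)) x - V x * Fs (dv w 1 c) x) -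
        A x ^ 2 * (A z * Fs (dv w 1 (dv v 1 c)) z - V z * Fs (dv w 1 c) z)) = 0 := by
    intro w x y z hq
    have r1 := hyp' x y z hq
    have r2 := e2 w x y z hq
    linear_combination (A x * A z) * r2 -
      (Fs (dv w 1 c) x * A z - A x * Fs (dv w 1 c) z) * r1
  -- a point with nonzero value
  obtain ⟨z₀, hz₀⟩ : ∃ z₀, A z₀ ≠ 0 := by
    by_contra hcon
    push Not at hcon
    have h7 := h4 g c hc hcon
    have h8 : c 0 ≠ 0 := by
      rw [hcdef]
      unfold co
      rw [one_mul]
      exact Complex.exp_ne_zero _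
    exact h8 (congrFun h7 0)
  -- kappa
  set Om : Sp g → Sp g → ℂ := fun w x => A x * Fs (dv w 1 (dv v 1 c)) x - V x * Fs (dv w 1 c) x
    with hOm
  set κ : Sp g → ℂ := fun w => Om w z₀ / A z₀ ^ 2 with hκ
  have e4 : ∀ w x, Om w x = κ w * A x ^ 2 := by
    intro w
    have h7 := h5 g (fun x => A (q - z₀ - x)) (fun x => A z₀ ^ 2 * Om w x - A x ^ 2 * Om w z₀)
      (LA_Fs_sub h3 hc _) ?_ ?_
    · rcases h7 with h7 | h7
      · exfalso
        apply hz₀
        have h8 := h7 (q - z₀ - z₀)
        have h9 : q - z₀ - (q - z₀ - z₀) = z₀ := by abel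
        simp only [h9] at h8
        exact h8
      · intro x
        have h8 := h7 x
        rw [hκ]
        field_simp
        linear_combination h8
    · have l1 : LA A := LA_Fs h3 hc
      have l2 : LA V := LA_Fs h3 (hcw v)
      have l3 : LA (Fs (dv w 1 c)) := LA_Fs h3 (hcw w)
      have l4 : LA (Fs (dv w 1 (dv v 1 c))) := LA_Fs h3 (hcvw w)
      have l5 : LA (Om w) := LA_sub (LA_mul l1 l4) (LA_mul l2 l3)
      have l6 : LA fun x => A x ^ 2 := by
        have := LA_mul l1 l1
        simpa only [sq] using this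
      exact LA_sub (LA_mul (LA_const (A z₀ ^ 2)) l5) (LA_mul l6 (LA_const (Om w z₀)))
    · intro x
      exact e3 w x (q - z₀ - x) z₀ (by abel)
  -- the differential equation
  have e5 : ∀ w, V (z₀ + w) = (V z₀ / A z₀ + κ w) * A (z₀ + w) := by
    intro w
    set cc : ℂ := V z₀ / A z₀ with hcc
    set K : ℂ → ℂ := fun τ => V (z₀ + τ • w) - (cc + κ w * τ) * A (z₀ + τ • w) with hK
    have dA : ∀ τ : ℂ, HasDerivAt (fun τ : ℂ => A (z₀ + τ • w)) (Fs (dv w 1 c) (z₀ + τ • w)) τ :=
      fun τ => h3 g c hc z₀ w τ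
    have dV : ∀ τ : ℂ, HasDerivAt (fun τ : ℂ => V (z₀ + τ • w))
        (Fs (dv w 1 (dv v 1 c)) (z₀ + τ • w)) τ := fun τ => h3 g _ (hcw v) z₀ w τ
    have dK : ∀ τ : ℂ, HasDerivAt K (Fs (dv w 1 (dv v 1 c)) (z₀ + τ • w) -
        (κ w * A (z₀ + τ • w) + (cc + κ w * τ) * Fs (dv w 1 c) (z₀ + τ • w))) τ := by
      intro τ
      have h7 : HasDerivAt (fun τ : ℂ => cc + κ w * τ) (κ w) τ := by
        have := ((hasDerivAt_id τ).const_mul (κ w)).const_add cc
        simpa using this
      exact (dV τ).sub (h7.mul (dA τ))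
    have hK0 : K 0 = 0 := by
      rw [hK]
      simp only [zero_smul, add_zero, mul_zero]
      rw [hcc]
      field_simp
      ring
    have hode : ∀ τ : ℂ, (Fs (dv w 1 (dv v 1 c)) (z₀ + τ • w) -
        (κ w * A (z₀ + τ • w) + (cc + κ w * τ) * Fs (dv w 1 c) (z₀ + τ • w))) * A (z₀ + τ • w) -
        K τ * Fs (dv w 1 c) (z₀ + τ • w) = 0 := by
      intro τ
      have h7 := e4 w (z₀ + τ • w)
      rw [hOm] at h7
      simp only at h7
      rw [hK]
      simp only
      linear_combination h7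
    -- a ball without zeros
    have hcont : ContinuousAt (fun τ : ℂ => A (z₀ + τ • w)) 0 := (dA 0).continuousAt
    have hne : ∀ᶠ τ : ℂ in 𝓝 0, A (z₀ + τ • w) ≠ 0 := by
      apply hcont.eventually_ne
      simpa using hz₀
    obtain ⟨r, hr, hball⟩ := Metric.eventually_nhds_iff_ball.1 hne
    have hconst : ∀ τ ∈ Metric.ball (0 : ℂ) r, K τ / A (z₀ + τ • w) = 0 := by
      intro τ hτ
      have hd : ∀ s ∈ Metric.ball (0 : ℂ) r,
          HasDerivAt (fun τ : ℂ => K τ / A (z₀ + τ • w)) 0 s := by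
        intro s hs
        have h7 := (dK s).div (dA s) (hball s hs)
        have h8 := hode s
        rw [h8, zero_div] at h7
        exact h7
      have h7 : K τ / A (z₀ + τ • w) = K 0 / A (z₀ + (0 : ℂ) • w) :=
        Metric.isOpen_ball.is_const_of_deriv_eq_zero
          (convex_ball (0 : ℂ) r).isPreconnected
          (fun s hs => (hd s hs).differentiableAt.differentiableWithinAt)
          (fun s hs => (hd s hs).deriv) hτ (Metric.mem_ball_self hr)
      rw [h7, hK0, zero_div]
    have hKan : AnalyticOnNhd ℂ K Set.univ := by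
      have hKd : Differentiable ℂ K := fun τ => (dK τ).differentiableAt
      exact hKd.differentiableOn.analyticOnNhd isOpen_univ
    have hKz : K = fun _ => 0 := by
      refine hKan.eq_of_eventuallyEq (z₀ := 0) analyticOnNhd_const ?_
      filter_upwards [Metric.ball_mem_nhds (0 : ℂ) hr] with τ hτ
      have h7 := hconst τ hτ
      rcases div_eq_zero_iff.1 h7 with h8 | h8
      · exact h8
      · exact absurd h8 (hball τ hτ)
    have h8 : K 1 = 0 := by rw [hKz]
    rw [hK] at h8
    simp only [one_smul, mul_one] at h8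
    linear_combination h8
  -- linearity of kappa
  have e6 : ∀ w, κ w = ∑ j, w j * κ (Pi.single j 1) := by
    intro w
    rw [hκ]
    simp only [hOm]
    rw [Fs_dv_lin hcvw w z₀, Fs_dv_lin hcw w z₀, Finset.mul_sum, Finset.mul_sum,
      ← Finset.sum_sub_distrib, Finset.sum_div]
    refine Finset.sum_congr rfl fun j _ => ?_
    ring
  -- the periods
  have e7 : ∀ m : Lat g, κ (Im m) = 0 := by
    intro m
    have h7 := e5 (Im m)
    have h8 := (h6 g B hB z₀ v m).1
    have h9 : A (z₀ + Im m) = A z₀ := h8.1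
    have h10 : V (z₀ + Im m) = V z₀ := h8.2
    rw [h9, h10] at h7
    have h11 : V z₀ / A z₀ * A z₀ = V z₀ := div_mul_cancel₀ _ hz₀
    have h12 : κ (Im m) * A z₀ = 0 := by linear_combination -h7 - h11
    exact (mul_eq_zero.1 h12).resolve_right hz₀
  have e8 : ∀ m : Lat g, κ (Bm B m) = 2 * Real.pi * dot m v := by
    intro m
    have h7 := e5 (Bm B m)
    obtain ⟨E, hE, h9, h10⟩ := (h6 g B hB z₀ v m).2
    have h9' : A (z₀ + Bm B m) = E * A z₀ := h9
    have h10' : V (z₀ + Bm B m) = E * (V z₀ + 2 * Real.pi * dot m v * A z₀) := h10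
    rw [h9', h10'] at h7
    have h11 : V z₀ / A z₀ * A z₀ = V z₀ := div_mul_cancel₀ _ hz₀
    have h12 : (κ (Bm B m) - 2 * Real.pi * dot m v) * (E * A z₀) = 0 := by
      linear_combination -h7 - E * h11
    have h13 := (mul_eq_zero.1 h12).resolve_right (mul_ne_zero hE hz₀)
    linear_combination h13
  have e9 : ∀ j : Fin g, κ (Pi.single j 1) = 0 := by
    intro j
    have h7 := e7 (Pi.single j 1)
    rw [e6] at h7
    rw [Finset.sum_eq_single j] at h7
    · unfold Im at h7
      rw [Pi.single_eq_same, Int.cast_one, mul_one] at h7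
      exact (mul_eq_zero.1 h7).resolve_left Complex.I_ne_zero
    · intro i _ hi
      unfold Im
      rw [Pi.single_eq_of_ne hi, Int.cast_zero, mul_zero, zero_mul]
    · intro h
      exact absurd (Finset.mem_univ j) h
  have e10 : v = 0 := by
    funext j
    have h7 := e8 (Pi.single j 1)
    rw [e6, Finset.sum_eq_zero fun i _ => by rw [e9, mul_zero]] at h7
    have h8 : dot (Pi.single j 1 : Lat g) v = v j := by
      unfold dot
      rw [Finset.sum_eq_single j]
      · rw [Pi.single_eq_same, Int.cast_one, one_mul]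
      · intro i _ hi
        rw [Pi.single_eq_of_ne hi, Int.cast_zero, zero_mul]
      · intro h
        exact absurd (Finset.mem_univ j) h
    rw [h8] at h7
    have h9 : (2 * Real.pi : ℂ) ≠ 0 := by
      have := Real.pi_ne_zero
      exact mul_ne_zero two_ne_zero (by exact_mod_cast this)
    exact (mul_eq_zero.1 h7.symm).resolve_left h9
  refine ⟨?_, e10⟩
  by_contra hc0
  have hV0 : ∀ x, V x = 0 := by
    intro x
    rw [hV, e10]
    unfold Fs
    have : ∀ s : Lat g, dv (0 : Sp g) 1 c s * Complex.exp (2 * Real.pi * dot s x) = 0 := by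
      intro s
      have h7 : dot s (0 : Sp g) = 0 := by
        unfold dot
        simp
      unfold dv
      rw [h7, mul_zero, pow_one, zero_mul, zero_mul]
    simp only [this, tsum_zero]
  have h7 := h5 g (fun x => A (q - z₀ - x)) A (LA_Fs_sub h3 hc _) (LA_Fs h3 hc) (fun x => by
    have h8 := hyp' x (q - z₀ - x) z₀ (by abel)
    rw [hV0, hV0, hV0] at h8
    have h9 : (c₀ * A z₀) * (A (q - z₀ - x) * A x) = 0 := by linear_combination h8
    exact (mul_eq_zero.1 h9).resolve_left (mul_ne_zero hc0 hz₀))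
  rcases h7 with h7 | h7
  · apply hz₀
    have h8 := h7 (q - z₀ - z₀)
    have h9 : q - z₀ - (q - z₀ - z₀) = z₀ := by abel
    simp only [h9] at h8
    exact h8
  · exact hz₀ (h7 z₀)

end Pool.Agent.L7h53.TH
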