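import Pool.Agent.L7h93.TH.Stm

/-!
# Project TH: basic facts about the exponential sums
-/

set_option autoImplicit false

namespace Pool.Agent.L7h53.TH

open Finset
open Pool.Agent.Results.MP_e16cda_ag.ThreeMomentsFail
open Pool.Agent.L7h93.TH

variable {g : ℕ}

/-- the bilinear form -/
noncomputable def bil (B : Matrix (Fin g) (Fin g) ℂ) (s m : Lat g) : ℂ :=
  ∑ i, ∑ j, (s i : ℂ) * B i j * (m j : ℂ)

theorem dot_add_left (s m : Lat g) (x : Sp g) : dot (s + m) x = dot s x + dot m x := by
  unfold dot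
  rw [← Finset.sum_add_distrib]
  refine Finset.sum_congr rfl fun i _ => ?_
  rw [Pi.add_apply]
  push_cast
  ring

theorem dot_sub_left (s m : Lat g) (x : Sp g) : dot (s - m) x = dot s x - dot m x := by
  unfold dot
  rw [← Finset.sum_sub_distrib]
  refine Finset.sum_congr rfl fun i _ => ?_
  rw [Pi.sub_apply]
  push_cast
  ring

theorem dot_add_right (s : Lat g) (x y : Sp g) : dot s (x + y) = dot s x + dot s y := by
  unfold dot
  rw [← Finset.sum_add_distrib]
  refine Finset.sum_congr rfl fun i _ => ?_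
  rw [Pi.add_apply]
  ring

theorem dot_smul_right (s : Lat g) (t : ℂ) (x : Sp g) : dot s (t • x) = t * dot s x := by
  unfold dot
  rw [Finset.mul_sum]
  refine Finset.sum_congr rfl fun i _ => ?_
  rw [Pi.smul_apply, smul_eq_mul]
  ring

theorem bil_symm {B : Matrix (Fin g) (Fin g) ℂ} (hB : B.IsSymm) (s m : Lat g) :
    bil B s m = bil B m s := by
  unfold bil
  rw [Finset.sum_comm]
  refine Finset.sum_congr rfl fun i _ => Finset.sum_congr rfl fun j _ => ?_
  rw [hB.apply i j]
  ring

theorem Q_add {B : Matrix (Fin g) (Fin g) ℂ} (hB : B.IsSymm) (s m : Lat g) :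
    Q B (s + m) = Q B s + 2 * bil B s m + Q B m := by
  have h1 : Q B (s + m) = Q B s + bil B s m + bil B m s + Q B m := by
    unfold Q bil
    simp only [← Finset.sum_add_distrib]
    refine Finset.sum_congr rfl fun i _ => Finset.sum_congr rfl fun j _ => ?_
    simp only [Pi.add_apply]
    push_cast
    ring
  rw [h1, bil_symm hB m s]
  ring

theorem bil_nsmul_right (B : Matrix (Fin g) (Fin g) ℂ) (n : ℕ) (s k : Lat g) :
    bil B s ((n : ℤ) • k) = n * bil B s k := by
  unfold bil
  rw [Finset.mul_sum]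
  refine Finset.sum_congr rfl fun i _ => ?_
  rw [Finset.mul_sum]
  refine Finset.sum_congr rfl fun j _ => ?_
  rw [Pi.smul_apply, smul_eq_mul]
  push_cast
  ring

theorem bil_add_left (B : Matrix (Fin g) (Fin g) ℂ) (s m k : Lat g) :
    bil B (s + m) k = bil B s k + bil B m k := by
  unfold bil
  simp only [← Finset.sum_add_distrib]
  refine Finset.sum_congr rfl fun i _ => Finset.sum_congr rfl fun j _ => ?_
  simp only [Pi.add_apply]
  push_cast
  ring

theorem bil_sub_left (B : Matrix (Fin g) (Fin g) ℂ) (s m k : Lat g) :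
    bil B (s - m) k = bil B s k - bil B m k := by
  unfold bil
  simp only [← Finset.sum_sub_distrib]
  refine Finset.sum_congr rfl fun i _ => Finset.sum_congr rfl fun j _ => ?_
  simp only [Pi.sub_apply]
  push_cast
  ring

theorem Q_nsmul (B : Matrix (Fin g) (Fin g) ℂ) (n : ℕ) (k : Lat g) :
    Q B ((n : ℤ) • k) = n ^ 2 * Q B k := by
  unfold Q
  rw [Finset.mul_sum]
  refine Finset.sum_congr rfl fun i _ => ?_
  rw [Finset.mul_sum]
  refine Finset.sum_congr rfl fun j _ => ?_
  simp only [Pi.smul_apply, smul_eq_mul]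
  push_cast
  ring

theorem sz_nonneg (s : Lat g) : 0 ≤ sz s := Finset.sum_nonneg fun _ _ => abs_nonneg _

theorem norm_dot_le (s : Lat g) (x : Sp g) : ‖dot s x‖ ≤ (∑ i, ‖x i‖) * sz s := by
  unfold dot sz
  refine (norm_sum_le _ _).trans ?_
  rw [Finset.mul_sum]
  refine Finset.sum_le_sum fun i _ => ?_
  rw [norm_mul, Complex.norm_intCast, mul_comm]
  exact mul_le_mul_of_nonneg_right
    (Finset.single_le_sum (f := fun i => ‖x i‖) (fun _ _ => norm_nonneg _) (Finset.mem_univ i))
    (abs_nonneg _)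

/-- the terms of `Fs` are absolutely summable -/
theorem summable_norm_Fs {c : Lat g → ℂ} (hc : Dec c) (x : Sp g) :
    Summable fun s => ‖c s * Complex.exp (2 * Real.pi * dot s x)‖ := by
  refine (hc (2 * Real.pi * ∑ i, ‖x i‖)).of_nonneg_of_le (fun _ => norm_nonneg _) fun s => ?_
  rw [norm_mul]
  refine mul_le_mul_of_nonneg_left ?_ (norm_nonneg _)
  rw [Complex.norm_exp]
  apply Real.exp_le_exp.2
  refine (Complex.re_le_norm _).trans ?_
  rw [norm_mul, norm_mul, Complex.norm_two, Complex.norm_real, Real.norm_eq_abs,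
    abs_of_pos Real.pi_pos, mul_assoc]
  have h1 : 0 ≤ 2 * Real.pi := by positivity
  rw [← mul_assoc]
  calc 2 * Real.pi * ‖dot s x‖ ≤ 2 * Real.pi * ((∑ i, ‖x i‖) * sz s) :=
        mul_le_mul_of_nonneg_left (norm_dot_le s x) h1
    _ = 2 * Real.pi * (∑ i, ‖x i‖) * sz s := by ring

theorem summable_Fs {c : Lat g → ℂ} (hc : Dec c) (x : Sp g) :
    Summable fun s => c s * Complex.exp (2 * Real.pi * dot s x) :=
  (summable_norm_Fs hc x).of_norm

theorem qp_one : QP (g := g) 1 0 fun _ => 1 := by
  intro s k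
  have : dot k (0 : Sp g) = 0 := by
    unfold dot
    simp
  rw [this, mul_zero, Complex.exp_zero, one_mul]

end Pool.Agent.L7h53.TH
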