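import Pool.Agent.L7h53.TH.Ann

/-!
# Project TH, part CNT: counting
-/

set_option autoImplicit false

namespace Pool.Agent.L7h53.TH

open Finset Filter Topology
open Pool.Agent.Results.MP_e16cda_ag.ThreeMomentsFail
open Pool.Agent.L7h93.TH

/-! ### Orders of vanishing at zero -/

/-- `φ t = a t ^ k + O(t ^ (k + 1))` -/
def Ord (φ : ℂ → ℂ) (k : ℕ) (a : ℂ) : Prop :=
  ∃ M : ℝ, 0 ≤ M ∧ ∀ t : ℂ, ‖t‖ ≤ 1 → ‖φ t - a * t ^ k‖ ≤ M * ‖t‖ ^ (k + 1)

theorem Ord.bound {φ : ℂ → ℂ} {k : ℕ} {a : ℂ} (h : Ord φ k a) :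
    ∃ M : ℝ, 0 ≤ M ∧ ∀ t : ℂ, ‖t‖ ≤ 1 → ‖φ t‖ ≤ M * ‖t‖ ^ k := by
  obtain ⟨M, hM, h⟩ := h
  refine ⟨M + ‖a‖, by positivity, fun t ht => ?_⟩
  have h1 := h t ht
  have h2 : ‖φ t‖ ≤ ‖φ t - a * t ^ k‖ + ‖a * t ^ k‖ := by
    have := norm_add_le (φ t - a * t ^ k) (a * t ^ k)
    rwa [sub_add_cancel] at this
  have h3 : ‖t‖ ^ (k + 1) ≤ ‖t‖ ^ k := pow_le_pow_of_le_one (norm_nonneg _) ht (Nat.le_succ k)
  rw [norm_mul, norm_pow] at h2
  nlinarith [mul_le_mul_of_nonneg_left h3 hM]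

theorem Ord.mul {φ ψ : ℂ → ℂ} {k l : ℕ} {a b : ℂ} (h : Ord φ k a) (h' : Ord ψ l b) :
    Ord (fun t => φ t * ψ t) (k + l) (a * b) := by
  obtain ⟨M', hM', hb⟩ := h'.bound
  obtain ⟨M, hM, h⟩ := h
  obtain ⟨M₂, hM₂, h'⟩ := h'
  refine ⟨M * M' + ‖a‖ * M₂, by positivity, fun t ht => ?_⟩
  have e : φ t * ψ t - a * b * t ^ (k + l) =
      (φ t - a * t ^ k) * ψ t + (a * t ^ k) * (ψ t - b * t ^ l) := by
    rw [pow_add]
    ring
  rw [e]
  refine (norm_add_le _ _).trans ?_
  rw [norm_mul, norm_mul, norm_mul, norm_pow]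
  have h1 : ‖φ t - a * t ^ k‖ * ‖ψ t‖ ≤ (M * ‖t‖ ^ (k + 1)) * (M' * ‖t‖ ^ l) :=
    mul_le_mul (h t ht) (hb t ht) (norm_nonneg _) (by positivity)
  have h2 : ‖a‖ * ‖t‖ ^ k * ‖ψ t - b * t ^ l‖ ≤ ‖a‖ * ‖t‖ ^ k * (M₂ * ‖t‖ ^ (l + 1)) :=
    mul_le_mul_of_nonneg_left (h' t ht) (by positivity)
  refine (add_le_add h1 h2).trans (le_of_eq ?_)
  ring

theorem Ord.one : Ord (fun _ => 1) 0 1 :=
  ⟨0, le_rfl, fun t _ => by simp⟩

theorem Ord.pow {φ : ℂ → ℂ} {k : ℕ} {a : ℂ} (h : Ord φ k a) (m : ℕ) :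
    Ord (fun t => φ t ^ m) (k * m) (a ^ m) := by
  induction m with
  | zero =>
    simp only [pow_zero, mul_zero]
    exact Ord.one
  | succ m ih =>
    simp only [pow_succ]
    rw [Nat.mul_succ]
    exact ih.mul h

theorem Ord.prod {ι : Type} (s : Finset ι) {φ : ι → ℂ → ℂ} {k : ι → ℕ} {a : ι → ℂ}
    (h : ∀ i, Ord (φ i) (k i) (a i)) :
    Ord (fun t => ∏ i ∈ s, φ i t) (∑ i ∈ s, k i) (∏ i ∈ s, a i) := by
  classical
  induction s using Finset.induction_on with
  | empty =>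
    simp only [Finset.prod_empty, Finset.sum_empty]
    exact Ord.one
  | insert i s hi ih =>
    simp only [Finset.prod_insert hi, Finset.sum_insert hi]
    exact (h i).mul ih

theorem Ord.zero (k : ℕ) : Ord (fun _ => 0) k 0 := ⟨0, le_rfl, fun t _ => by simp⟩

theorem Ord.add {φ ψ : ℂ → ℂ} {k : ℕ} {a b : ℂ} (h : Ord φ k a) (h' : Ord ψ k b) :
    Ord (fun t => φ t + ψ t) k (a + b) := by
  obtain ⟨M, hM, h⟩ := h
  obtain ⟨M₂, hM₂, h'⟩ := h'
  refine ⟨M + M₂, by positivity, fun t ht => ?_⟩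
  have e : φ t + ψ t - (a + b) * t ^ k = (φ t - a * t ^ k) + (ψ t - b * t ^ k) := by ring
  rw [e]
  refine (norm_add_le _ _).trans ?_
  rw [add_mul]
  exact add_le_add (h t ht) (h' t ht)

theorem Ord.sum {ι : Type} (s : Finset ι) {φ : ι → ℂ → ℂ} {k : ℕ} {a : ι → ℂ}
    (h : ∀ i, Ord (φ i) k (a i)) : Ord (fun t => ∑ i ∈ s, φ i t) k (∑ i ∈ s, a i) := by
  classical
  induction s using Finset.induction_on with
  | empty =>
    simp only [Finset.sum_empty]
    exact Ord.zero k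
  | insert i s hi ih =>
    simp only [Finset.sum_insert hi]
    exact (h i).add ih

theorem Ord.lower {φ : ℂ → ℂ} {k j : ℕ} {M : ℝ} (hM : 0 ≤ M)
    (h : ∀ t : ℂ, ‖t‖ ≤ 1 → ‖φ t‖ ≤ M * ‖t‖ ^ k) (hj : j < k) : Ord φ j 0 := by
  refine ⟨M, hM, fun t ht => ?_⟩
  rw [zero_mul, sub_zero]
  exact (h t ht).trans (mul_le_mul_of_nonneg_left
    (pow_le_pow_of_le_one (norm_nonneg _) ht hj) hM)

theorem Ord.eq_zero {k : ℕ} {a : ℂ} (h : Ord (fun _ => 0) k a) : a = 0 := by
  obtain ⟨M, hM, h⟩ := h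
  by_contra ha
  have ha' : 0 < ‖a‖ := norm_pos_iff.2 ha
  set r : ℝ := min 1 (‖a‖ / (2 * (M + 1))) with hr
  have hr0 : 0 < r := lt_min one_pos (by positivity)
  have hr1 : r ≤ 1 := min_le_left _ _
  have hr2 : r ≤ ‖a‖ / (2 * (M + 1)) := min_le_right _ _
  have h1 := h (r : ℂ) (by rw [Complex.norm_real, Real.norm_eq_abs, abs_of_pos hr0]; exact hr1)
  rw [zero_sub, norm_neg, norm_mul, norm_pow, Complex.norm_real, Real.norm_eq_abs,
    abs_of_pos hr0, pow_succ] at h1
  have h2 : ‖a‖ ≤ M * r := by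
    have h3 : 0 < r ^ k := by positivity
    have h4 : ‖a‖ * r ^ k ≤ (M * r) * r ^ k := by linarith
    exact le_of_mul_le_mul_right h4 h3
  have h5 : M * r ≤ ‖a‖ / 2 := by
    calc M * r ≤ (M + 1) * (‖a‖ / (2 * (M + 1))) := by
          apply mul_le_mul (by linarith) hr2 hr0.le (by linarith)
      _ = ‖a‖ / 2 := by
          field_simp
  linarith

/-! ### Products of theta functions of order three -/

/-- products of `k` theta functions of order three -/
def PP {g : ℕ} (B : Matrix (Fin g) (Fin g) ℂ) (k : ℕ) (f : Sp g → ℂ) : Prop :=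
  (k = 0 ∧ f = fun _ => 1) ∨ (1 ≤ k ∧ InE B (3 * k) 0 f)

theorem PP.mul (h : S_MUL) {g : ℕ} {B : Matrix (Fin g) (Fin g) ℂ} (hB : IsParameter B) {k l : ℕ}
    {f f' : Sp g → ℂ} (hf : PP B k f) (hf' : PP B l f') : PP B (k + l) fun x => f x * f' x := by
  rcases hf with ⟨rfl, rfl⟩ | ⟨hk, hf⟩
  · simp only [one_mul, zero_add]
    exact hf'
  · rcases hf' with ⟨rfl, rfl⟩ | ⟨hl, hf'⟩
    · simp only [mul_one, add_zero]
      exact Or.inr ⟨hk, hf⟩
    · right
      refine ⟨by omega, ?_⟩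
      have h1 := h g B hB (3 * k) (3 * l) (by omega) (by omega) 0 0 f f' hf hf'
      rw [add_zero, ← mul_add] at h1
      exact h1

theorem PP.pow (h : S_MUL) {g : ℕ} {B : Matrix (Fin g) (Fin g) ℂ} (hB : IsParameter B)
    {f : Sp g → ℂ} (hf : PP B 1 f) (m : ℕ) : PP B m fun x => f x ^ m := by
  induction m with
  | zero =>
    left
    refine ⟨rfl, ?_⟩
    simp only [pow_zero]
  | succ m ih =>
    simp only [pow_succ]
    exact PP.mul h hB ih hf

theorem PP.prod (h : S_MUL) {g : ℕ} {B : Matrix (Fin g) (Fin g) ℂ} (hB : IsParameter B)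
    {ι : Type} (s : Finset ι) {k : ι → ℕ} {f : ι → Sp g → ℂ} (hf : ∀ i, PP B (k i) (f i)) :
    PP B (∑ i ∈ s, k i) fun x => ∏ i ∈ s, f i x := by
  classical
  induction s using Finset.induction_on with
  | empty =>
    left
    simp only [Finset.prod_empty, Finset.sum_empty, true_and]
  | insert i s hi ih =>
    simp only [Finset.prod_insert hi, Finset.sum_insert hi]
    exact PP.mul h hB (hf i) ih

theorem bern (m g : ℕ) : (m + 2) ^ (g + 1) ≤ m ^ (g + 1) + 2 * (g + 1) * (m + 2) ^ g := by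
  induction g with
  | zero => simp
  | succ g ih =>
    have h1 : m ^ (g + 1) ≤ (m + 2) ^ (g + 1) := Nat.pow_le_pow_left (by omega) _
    calc (m + 2) ^ (g + 1 + 1) = (m + 2) * (m + 2) ^ (g + 1) := by ring
      _ ≤ (m + 2) * (m ^ (g + 1) + 2 * (g + 1) * (m + 2) ^ g) := Nat.mul_le_mul_left _ ih
      _ = m ^ (g + 1 + 1) + 2 * m ^ (g + 1) + 2 * (g + 1) * (m + 2) ^ (g + 1) := by ring
      _ ≤ m ^ (g + 1 + 1) + 2 * (m + 2) ^ (g + 1) + 2 * (g + 1) * (m + 2) ^ (g + 1) := by
          omega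
      _ = m ^ (g + 1 + 1) + 2 * (g + 1 + 1) * (m + 2) ^ (g + 1) := by ring

theorem count (g : ℕ) (hg : 1 ≤ g) : (3 * Kg g) ^ g <
    (2 * g * (3 * g) ^ (g - 1) + 1) ^ g + (3 * Kg g - 2) ^ g := by
  obtain ⟨r, rfl⟩ : ∃ r, g = r + 1 := ⟨g - 1, by omega⟩
  set L := 2 * (r + 1) * (3 * (r + 1)) ^ (r + 1 - 1) with hL
  have hK : Kg (r + 1) = (r + 1) * L := rfl
  have hL1 : 1 ≤ L := by
    rw [hL]
    have : 1 ≤ (3 * (r + 1)) ^ (r + 1 - 1) := Nat.one_le_pow _ _ (by omega)
    nlinarith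
  have hK1 : 1 ≤ Kg (r + 1) := by
    rw [hK]
    exact Nat.mul_pos (by omega) hL1
  obtain ⟨m, hm⟩ : ∃ m, 3 * Kg (r + 1) = m + 2 := ⟨3 * Kg (r + 1) - 2, by omega⟩
  have h1 := bern m r
  have h2 : 2 * (r + 1) * (m + 2) ^ r = L ^ (r + 1) := by
    rw [← hm, hK, pow_succ, hL]
    rw [Nat.add_sub_cancel]
    set a := (3 * (r + 1)) ^ r
    have h3 : (3 * ((r + 1) * (2 * (r + 1) * a))) ^ r = a * (2 * (r + 1) * a) ^ r := by
      rw [← mul_assoc, mul_pow]
    rw [h3]
    ring
  rw [h2] at h1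
  have h3 : L ^ (r + 1) < (L + 1) ^ (r + 1) := Nat.pow_lt_pow_left (by omega) (by omega)
  have h4 : 3 * Kg (r + 1) - 2 = m := by omega
  rw [h4, hm]
  omega

theorem InE.la (h1 : S_DEC) (h3 : S_DER) {g : ℕ} {B : Matrix (Fin g) (Fin g) ℂ}
    (hB : IsParameter B) {n : ℕ} (hn : 1 ≤ n) {t : Sp g} {f : Sp g → ℂ} (hf : InE B n t f) :
    LA f := by
  obtain ⟨C, hC, rfl⟩ := hf
  exact LA_Fs h3 (h1 g B hB n hn t C hC)

theorem s_MB (h1 : S_DEC) (h3 : S_DER) (hM : S_MUL) (hU : S_UP) (hL : S_LOW) (hJ : S_JET)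
    (h5 : S_ZD) : S_MB := by
  classical
  intro g B hg hB f p hf hvan
  by_contra hcon
  push Not at hcon
  obtain ⟨x₀, hx₀⟩ := hcon
  obtain ⟨f₀, f₁, hf₀, hf₁, hjet⟩ := hJ g B hB p
  set L := 2 * g * (3 * g) ^ (g - 1) with hLdef
  have hL1 : 1 ≤ L := by
    have : 1 ≤ (3 * g) ^ (g - 1) := Nat.one_le_pow _ _ (by omega)
    rw [hLdef]
    nlinarith
  set K := Kg g with hK
  have hKL : K = g * L := rfl
  have hK1 : 1 ≤ K := by
    rw [hKL]
    exact Nat.mul_pos (by omega) hL1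
  set n := 3 * K with hn
  obtain ⟨b, hb, hbi⟩ := hL g B hB (n - 2) (by omega)
  -- the functions
  let sa : (Fin g → Fin (L + 1)) → ℕ := fun α => ∑ i, (α i : ℕ)
  have hsa : ∀ α, sa α ≤ K := by
    intro α
    calc sa α ≤ ∑ _i : Fin g, L := Finset.sum_le_sum fun i _ => by
          have := (α i).2
          omega
      _ = K := by
          rw [Finset.sum_const, Finset.card_univ, Fintype.card_fin, smul_eq_mul]
          exact hKL.symm
  let T : (Fin g → Fin (L + 1)) → Sp g → ℂ := fun α x =>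
    f₀ x ^ (K - sa α) * ∏ i, f₁ i x ^ (α i : ℕ)
  have hT : ∀ α, InE B n 0 (T α) := by
    intro α
    have e1 : PP B 1 f₀ := Or.inr ⟨le_rfl, hf₀⟩
    have e2 : ∀ i, PP B 1 (f₁ i) := fun i => Or.inr ⟨le_rfl, hf₁ i⟩
    have e3 := PP.mul hM hB (PP.pow hM hB e1 (K - sa α))
      (PP.prod hM hB Finset.univ (k := fun i => (α i : ℕ)) (f := fun i x => f₁ i x ^ (α i : ℕ))
        fun i => PP.pow hM hB (e2 i) (α i : ℕ))
    have e4 : K - sa α + ∑ i, (α i : ℕ) = K := Nat.sub_add_cancel (hsa α)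
    rw [e4] at e3
    rcases e3 with ⟨h6, _⟩ | ⟨_, h6⟩
    · omega
    · exact h6
  have hfb : ∀ σ, InE B n 0 fun x => f x * b σ x := by
    intro σ
    have e1 := hM g B hB 2 (n - 2) (by omega) (by omega) 0 0 f (b σ) hf (hb σ)
    have e2 : 2 + (n - 2) = n := by omega
    rw [e2, add_zero] at e1
    exact e1
  obtain ⟨c, hc, hrel⟩ := hU g B hB n (by omega)
    ((Fin g → Fin (L + 1)) ⊕ (Fin g → Fin (n - 2))) (by
      rw [Fintype.card_sum, Fintype.card_fun, Fintype.card_fun, Fintype.card_fin, Fintype.card_fin,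
        Fintype.card_fin]
      exact count g hg)
    (Sum.elim T fun σ x => f x * b σ x) (by
      rintro (α | σ)
      · exact hT α
      · exact hfb σ)
  set h : Sp g → ℂ := fun x => ∑ σ, c (Sum.inr σ) * b σ x with hh
  have hrel' : ∀ x, ∑ α, c (Sum.inl α) * T α x + f x * h x = 0 := by
    intro x
    have := hrel x
    rw [Fintype.sum_sum_type] at this
    rw [← this, hh]
    congr 1
    rw [Finset.mul_sum]
    refine Finset.sum_congr rfl fun σ _ => ?_
    show _ = c (Sum.inr σ) * (f x * b σ x)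
    ring
  have hbLA : ∀ σ, LA (b σ) := fun σ => InE.la h1 h3 hB (by omega) (hb σ)
  have hhLA : LA h := by
    intro x w
    have : Differentiable ℂ fun t : ℂ => ∑ σ, c (Sum.inr σ) * b σ (x + t • w) :=
      Differentiable.fun_sum fun σ _ => (hbLA σ x w).const_mul _
    exact this
  -- the coefficients of the T vanish
  have hcl : ∀ α, c (Sum.inl α) = 0 := by
    by_contra hne
    push Not at hne
    have hex : ∃ j, ∃ α, sa α = j ∧ c (Sum.inl α) ≠ 0 := by
      obtain ⟨α, hα⟩ := hne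
      exact ⟨sa α, α, rfl, hα⟩
    let j := Nat.find hex
    obtain ⟨α₀, hα₀, hcα₀⟩ := Nat.find_spec hex
    have hmin : ∀ α, sa α < j → c (Sum.inl α) = 0 := by
      intro α hα
      by_contra h6
      exact Nat.find_min hex hα ⟨α, rfl, h6⟩
    have hjK : j ≤ K := by
      have := hsa α₀
      rw [hα₀] at this
      exact this
    have hw : ∀ w : Sp g, ∑ α, (if sa α = j then c (Sum.inl α) * ∏ i, w i ^ (α i : ℕ) else 0)
        = 0 := by
      intro w
      obtain ⟨M, hjw⟩ := hjet w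
      have hM0 : 0 ≤ M := by
        have := (hjw 1 (by simp)).1
        have h7 := (norm_nonneg _).trans this
        simpa using h7
      have o0 : Ord (fun t => f₀ (p + t • w)) 0 1 := by
        refine ⟨M, hM0, fun t ht => ?_⟩
        have := (hjw t ht).1
        rw [pow_zero, mul_one, zero_add, pow_one]
        exact this
      have o1 : ∀ i, Ord (fun t => f₁ i (p + t • w)) 1 (w i) := by
        intro i
        refine ⟨M, hM0, fun t ht => ?_⟩
        have := (hjw t ht).2 i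
        rw [pow_one, mul_comm (w i) t]
        exact this
      have oT : ∀ α, Ord (fun t => T α (p + t • w)) (sa α) (∏ i, w i ^ (α i : ℕ)) := by
        intro α
        have e1 := (o0.pow (K - sa α)).mul (Ord.prod Finset.univ
          (φ := fun i t => f₁ i (p + t • w) ^ (α i : ℕ)) (k := fun i => 1 * (α i : ℕ))
          (a := fun i => w i ^ (α i : ℕ)) fun i => (o1 i).pow (α i : ℕ))
        simp only [zero_mul, one_mul, one_pow, zero_add] at e1
        exact e1
      have oc : ∀ α, Ord (fun t => c (Sum.inl α) * T α (p + t • w)) j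
          (if sa α = j then c (Sum.inl α) * ∏ i, w i ^ (α i : ℕ) else 0) := by
        intro α
        by_cases h6 : sa α = j
        · rw [if_pos h6]
          have e1 := oT α
          rw [h6] at e1
          obtain ⟨M', hM', e2⟩ := e1
          refine ⟨‖c (Sum.inl α)‖ * M', by positivity, fun t ht => ?_⟩
          have e3 : c (Sum.inl α) * T α (p + t • w) - c (Sum.inl α) * (∏ i, w i ^ (α i : ℕ)) * t ^ j
              = c (Sum.inl α) * (T α (p + t • w) - (∏ i, w i ^ (α i : ℕ)) * t ^ j) := by ring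
          rw [e3, norm_mul, mul_assoc]
          exact mul_le_mul_of_nonneg_left (e2 t ht) (norm_nonneg _)
        · rw [if_neg h6]
          rcases lt_or_gt_of_ne h6 with h7 | h7
          · rw [hmin α h7]
            simp only [zero_mul]
            exact Ord.zero j
          · obtain ⟨M', hM', e2⟩ := (oT α).bound
            refine Ord.lower (M := ‖c (Sum.inl α)‖ * M') (by positivity) (fun t ht => ?_) h7
            rw [norm_mul, mul_assoc]
            exact mul_le_mul_of_nonneg_left (e2 t ht) (norm_nonneg _)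
      have of : Ord (fun t => f (p + t • w) * h (p + t • w)) j 0 := by
        obtain ⟨M₁, e1⟩ := hvan w
        have hM₁ : 0 ≤ M₁ := by
          have := e1 1 (by simp)
          have h7 := (norm_nonneg _).trans this
          simpa using h7
        obtain ⟨H, hH⟩ : ∃ H : ℝ, ∀ t ∈ Metric.closedBall (0 : ℂ) 1, ‖h (p + t • w)‖ ≤ H :=
          (isCompact_closedBall (0 : ℂ) 1).exists_bound_of_continuousOn
            (hhLA p w).continuous.continuousOn
        have hH0 : 0 ≤ H := (norm_nonneg _).trans (hH 0 (by simp))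
        refine Ord.lower (k := K + 1) (M := M₁ * H) (by positivity) (fun t ht => ?_) (by omega)
        rw [norm_mul]
        have e2 := hH t (by simpa using ht)
        calc ‖f (p + t • w)‖ * ‖h (p + t • w)‖ ≤ (M₁ * ‖t‖ ^ (K + 1)) * H :=
              mul_le_mul (e1 t ht) e2 (norm_nonneg _) (by positivity)
          _ = M₁ * H * ‖t‖ ^ (K + 1) := by ring
      have oall := (Ord.sum Finset.univ oc).add of
      have e1 : (fun t : ℂ => ∑ α, c (Sum.inl α) * T α (p + t • w) +
          f (p + t • w) * h (p + t • w)) = fun _ => 0 := by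
        funext t
        exact hrel' _
      rw [e1, add_zero] at oall
      exact oall.eq_zero
    -- the polynomial
    let fs : (Fin g → Fin (L + 1)) → (Fin g →₀ ℕ) := fun α =>
      Finsupp.equivFunOnFinite.symm fun i => (α i : ℕ)
    have hfs : Function.Injective fs := by
      intro α α' h6
      have h7 := Finsupp.equivFunOnFinite.symm.injective h6
      funext i
      exact Fin.ext (congrFun h7 i)
    let P : MvPolynomial (Fin g) ℂ := ∑ α, MvPolynomial.monomial (fs α)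
      (if sa α = j then c (Sum.inl α) else 0)
    have hP : P = 0 := by
      apply MvPolynomial.funext
      intro w
      rw [map_zero, ← hw w]
      show MvPolynomial.eval w (∑ α, MvPolynomial.monomial (fs α)
        (if sa α = j then c (Sum.inl α) else 0)) = _
      rw [map_sum]
      refine Finset.sum_congr rfl fun α _ => ?_
      rw [MvPolynomial.eval_monomial]
      have h6 : ((fs α).prod fun i e => w i ^ e) = ∏ i, w i ^ (α i : ℕ) := by
        rw [Finsupp.prod_fintype _ _ fun i => pow_zero _]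
        rfl
      rw [h6]
      split_ifs
      · rfl
      · rw [zero_mul]
    have h6 : MvPolynomial.coeff (fs α₀) P = c (Sum.inl α₀) := by
      show MvPolynomial.coeff (fs α₀) (∑ α, MvPolynomial.monomial (fs α)
        (if sa α = j then c (Sum.inl α) else 0)) = _
      rw [MvPolynomial.coeff_sum, Finset.sum_eq_single α₀]
      · rw [MvPolynomial.coeff_monomial, if_pos rfl, if_pos hα₀]
      · intro α _ hα
        rw [MvPolynomial.coeff_monomial, if_neg]
        intro h7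
        exact hα (hfs h7)
      · intro h7
        exact absurd (Finset.mem_univ _) h7
    rw [hP, MvPolynomial.coeff_zero] at h6
    exact hcα₀ h6.symm
  -- the other coefficients
  have hfh : ∀ x, f x * h x = 0 := by
    intro x
    have := hrel' x
    rw [Finset.sum_eq_zero fun α _ => by rw [hcl α, zero_mul], zero_add] at this
    exact this
  have hfLA : LA f := InE.la h1 h3 hB (by omega) hf
  rcases h5 g f h hfLA hhLA hfh with h6 | h6
  · exact hx₀ (h6 x₀)
  · apply hc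
    have h7 : ∑ σ, c (Sum.inr σ) • b σ = 0 := by
      funext x
      rw [Finset.sum_apply]
      exact h6 x
    have h8 := Fintype.linearIndependent_iff.1 hbi _ h7
    funext y
    rcases y with α | σ
    · exact hcl α
    · exact h8 σ

end Pool.Agent.L7h53.TH
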