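import Pool.Agent.L7h53.TH.Bas

/-!
# Project TH, part FAC: factorization of the double moments
-/

set_option autoImplicit false

namespace Pool.Agent.L7h53.TH

open Finset
open Pool.Agent.Results.MP_e16cda_ag.ThreeMomentsFail
open Pool.Agent.L7h93.TH

variable {g : ℕ}

/-- residue class -/
def md (s : Lat g) : Fin g → ZMod 2 := fun i => ((s i : ℤ) : ZMod 2)

theorem Q_par {B : Matrix (Fin g) (Fin g) ℂ} (n m : Lat g) :
    Q B (n + m) + Q B (n - m) = 2 * Q B n + 2 * Q B m := by
  unfold Q
  simp only [Finset.mul_sum, ← Finset.sum_add_distrib]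
  refine Finset.sum_congr rfl fun i _ => Finset.sum_congr rfl fun j _ => ?_
  simp only [Pi.add_apply, Pi.sub_apply]
  push_cast
  ring

/-- the map `(n, m) ↦ (n + m, n - m)` -/
def pm (p : Lat g × Lat g) : Lat g × Lat g := (p.1 + p.2, p.1 - p.2)

theorem pm_inj : Function.Injective (pm (g := g)) := by
  rintro ⟨n, m⟩ ⟨n', m'⟩ h
  have h1 : n + m = n' + m' := congrArg Prod.fst h
  have h2 : n - m = n' - m' := congrArg Prod.snd h
  have h3 : ∀ i, n i = n' i ∧ m i = m' i := by
    intro i
    have e1 := congrFun h1 i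
    have e2 := congrFun h2 i
    simp only [Pi.add_apply, Pi.sub_apply] at e1 e2
    omega
  exact Prod.ext (funext fun i => (h3 i).1) (funext fun i => (h3 i).2)

theorem mem_range_pm (a b : Lat g) (h : md a = md b) : (a, b) ∈ Set.range (pm (g := g)) := by
  have h1 : ∀ i, ∃ k : ℤ, b i - a i = 2 * k := by
    intro i
    have h2 : ((a i : ℤ) : ZMod 2) = ((b i : ℤ) : ZMod 2) := congrFun h i
    rw [ZMod.intCast_eq_intCast_iff_dvd_sub] at h2
    obtain ⟨k, hk⟩ := h2
    exact ⟨k, by exact_mod_cast hk⟩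
  choose k hk using h1
  refine ⟨(fun i => a i + k i, fun i => -k i), ?_⟩
  refine Prod.ext (funext fun i => ?_) (funext fun i => ?_)
  · show a i + k i + -k i = a i
    ring
  · show a i + k i - -k i = b i
    have := hk i
    linarith

theorem md_pm (p : Lat g × Lat g) : md (pm p).1 = md (pm p).2 := by
  funext i
  show (((p.1 i + p.2 i : ℤ)) : ZMod 2) = (((p.1 i - p.2 i : ℤ)) : ZMod 2)
  rw [ZMod.intCast_eq_intCast_iff_dvd_sub]
  exact ⟨-p.2 i, by push_cast; ring⟩

theorem s_FAC (h1 : S_DCF) (h2 : S_SUM) : S_FAC := by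
  classical
  intro g B hB u P R
  -- the right side
  have hs : ∀ (v : Sp g) (σ : Fin g → ZMod 2) (T : MvPolynomial (Fin g) ℂ),
      Summable fun s => ‖cf v B σ s * MvPolynomial.eval (fun i => (s i : ℂ)) T‖ :=
    fun v σ T => h2 g _ ((h1 g B hB v).2 σ) T
  have e1 : ∀ σ : Fin g → ZMod 2, ml (cf u B σ) P * ml (cf 0 B σ) R =
      ∑' z : Lat g × Lat g, (cf u B σ z.1 * MvPolynomial.eval (fun i => (z.1 i : ℂ)) P) *
        (cf 0 B σ z.2 * MvPolynomial.eval (fun i => (z.2 i : ℂ)) R) := fun σ =>
    tsum_mul_tsum_of_summable_norm (hs u σ P) (hs 0 σ R)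
  simp only [e1]
  rw [← Summable.tsum_finsetSum fun σ _ =>
    summable_mul_of_summable_norm (hs u σ P) (hs 0 σ R)]
  -- the terms
  let E : Lat g × Lat g → ℂ := fun z => Complex.exp (2 * Real.pi * dot z.1 u -
    (Real.pi / 2) * Q B z.1) * Complex.exp (2 * Real.pi * dot z.2 (0 : Sp g) -
    (Real.pi / 2) * Q B z.2)
  let G : Lat g × Lat g → ℂ := fun z => if md z.1 = md z.2 then
    E z * (MvPolynomial.eval (fun i => (z.1 i : ℂ)) P *
      MvPolynomial.eval (fun i => (z.2 i : ℂ)) R) else 0
  have e2 : ∀ z : Lat g × Lat g, ∑ σ : Fin g → ZMod 2,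
      (cf u B σ z.1 * MvPolynomial.eval (fun i => (z.1 i : ℂ)) P) *
        (cf 0 B σ z.2 * MvPolynomial.eval (fun i => (z.2 i : ℂ)) R) = G z := by
    intro z
    rw [Finset.sum_eq_single (md z.1)]
    · have c1 : cf u B (md z.1) z.1 = Complex.exp (2 * Real.pi * dot z.1 u -
          (Real.pi / 2) * Q B z.1) := if_pos rfl
      rw [c1]
      show _ = if md z.1 = md z.2 then _ else _
      by_cases h3 : md z.1 = md z.2
      · have c2 : cf 0 B (md z.1) z.2 = Complex.exp (2 * Real.pi * dot z.2 (0 : Sp g) -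
          (Real.pi / 2) * Q B z.2) := if_pos h3.symm
        rw [c2, if_pos h3]
        show _ = (Complex.exp _ * Complex.exp _) * _
        ring
      · have c2 : cf 0 B (md z.1) z.2 = 0 := if_neg fun h => h3 h.symm
        rw [c2, if_neg h3]
        ring
    · intro σ _ hσ
      have c1 : cf u B σ z.1 = 0 := if_neg fun h => hσ h.symm
      rw [c1]
      ring
    · intro h
      exact absurd (Finset.mem_univ _) h
  simp only [e2]
  -- the left side
  have hsupp : Function.support G ⊆ Set.range (pm (g := g)) := by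
    rintro ⟨a, b⟩ hz
    by_cases h3 : md a = md b
    · exact mem_range_pm a b h3
    · exfalso
      apply hz
      show (if md a = md b then _ else _) = _
      rw [if_neg h3]
  rw [← pm_inj.tsum_eq hsupp]
  unfold GG
  refine tsum_congr fun p => ?_
  obtain ⟨n, m⟩ := p
  show weight u B n * weight u B m * _ = if md (pm (n, m)).1 = md (pm (n, m)).2 then _ else _
  rw [if_pos (md_pm _)]
  have e3 : weight u B n * weight u B m = E (pm (n, m)) := by
    show Complex.exp (2 * Real.pi * (dot n u - (1 / 2) * Q B n)) *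
      Complex.exp (2 * Real.pi * (dot m u - (1 / 2) * Q B m)) =
      Complex.exp (2 * Real.pi * dot (n + m) u - (Real.pi / 2) * Q B (n + m)) *
        Complex.exp (2 * Real.pi * dot (n - m) (0 : Sp g) - (Real.pi / 2) * Q B (n - m))
    rw [← Complex.exp_add, ← Complex.exp_add]
    congr 1
    have h4 : dot (n - m) (0 : Sp g) = 0 := by
      unfold dot
      simp
    rw [h4, dot_add_left]
    have h5 := Q_par (B := B) n m
    linear_combination (Real.pi / 2 : ℂ) * h5
  rw [e3]
  congr 2
  · refine congrArg (fun f => MvPolynomial.eval f P) (funext fun i => ?_)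
    show (n i : ℂ) + m i = ((n i + m i : ℤ) : ℂ)
    push_cast
    ring
  · refine congrArg (fun f => MvPolynomial.eval f R) (funext fun i => ?_)
    show (n i : ℂ) - m i = ((n i - m i : ℤ) : ℂ)
    push_cast
    ring

end Pool.Agent.L7h53.TH
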