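import Pool.Agent.L7h53.TH.Bas

/-!
# Project TH, part MUL: products of theta functions
-/

set_option autoImplicit false

namespace Pool.Agent.L7h53.TH

open Finset
open Pool.Agent.Results.MP_e16cda_ag.ThreeMomentsFail
open Pool.Agent.L7h93.TH

/-- the weights -/
noncomputable def WW {g : ℕ} (B : Matrix (Fin g) (Fin g) ℂ) (n m : ℕ) (a s : Lat g) : ℂ :=
  Complex.exp (-Real.pi * (Q B a / n + Q B (s - a) / m - Q B s / ((n + m : ℕ) : ℂ)))

/-- the coefficients of the product -/
noncomputable def EE {g : ℕ} (B : Matrix (Fin g) (Fin g) ℂ) (n m : ℕ) (C D : Lat g → ℂ)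
    (s : Lat g) : ℂ := ∑' a, C a * D (s - a) * WW B n m a s

theorem WW_shift {g : ℕ} {B : Matrix (Fin g) (Fin g) ℂ} (hB : B.IsSymm) {n m : ℕ} (hn : 1 ≤ n)
    (hm : 1 ≤ m) (a s k : Lat g) :
    WW B n m (a + (n : ℤ) • k) (s + ((n + m : ℕ) : ℤ) • k) = WW B n m a s := by
  have hn0 : (n : ℂ) ≠ 0 := by
    have : n ≠ 0 := by omega
    exact_mod_cast this
  have hm0 : (m : ℂ) ≠ 0 := by
    have : m ≠ 0 := by omega
    exact_mod_cast this
  have hnm0 : ((n : ℂ) + m) ≠ 0 := by
    have : n + m ≠ 0 := by omega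
    exact_mod_cast this
  unfold WW
  congr 1
  have h1 : s + ((n + m : ℕ) : ℤ) • k - (a + (n : ℤ) • k) = (s - a) + (m : ℤ) • k := by
    push_cast
    rw [add_smul]
    abel
  rw [h1, Q_add hB, Q_add hB, Q_add hB, bil_nsmul_right, bil_nsmul_right, bil_nsmul_right,
    Q_nsmul, Q_nsmul, Q_nsmul, bil_sub_left]
  push_cast
  field_simp
  ring

theorem co_EE {g : ℕ} (B : Matrix (Fin g) (Fin g) ℂ) (n m : ℕ) (C D : Lat g → ℂ)
    (s : Lat g) : co B (n + m) (EE B n m C D) s = ∑' a, co B n C a * co B m D (s - a) := by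
  unfold co EE
  rw [← tsum_mul_right]
  refine tsum_congr fun a => ?_
  have h1 : WW B n m a s * Complex.exp (-(Real.pi / ((n + m : ℕ) : ℂ)) * Q B s) =
      Complex.exp (-(Real.pi / n) * Q B a) * Complex.exp (-(Real.pi / m) * Q B (s - a)) := by
    unfold WW
    rw [← Complex.exp_add, ← Complex.exp_add]
    congr 1
    ring
  calc C a * D (s - a) * WW B n m a s * Complex.exp (-(Real.pi / ((n + m : ℕ) : ℂ)) * Q B s)
      = C a * D (s - a) * (WW B n m a s *
          Complex.exp (-(Real.pi / ((n + m : ℕ) : ℂ)) * Q B s)) := by ring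
    _ = _ := by
        rw [h1]
        ring

/-- the equivalence `(s, a) ↦ (a, s - a)` -/
def prE (g : ℕ) : Lat g × Lat g ≃ Lat g × Lat g where
  toFun p := (p.2, p.1 - p.2)
  invFun p := (p.1 + p.2, p.1)
  left_inv p := by
    refine Prod.ext ?_ rfl
    show p.2 + (p.1 - p.2) = p.1
    abel
  right_inv p := by
    refine Prod.ext rfl ?_
    show p.1 + p.2 - p.1 = p.2
    abel

theorem s_MUL (h : S_DEC) : S_MUL := by
  intro g B hB n m hn hm t t' f k hf hk
  obtain ⟨C, hC, rfl⟩ := hf
  obtain ⟨D, hD, rfl⟩ := hk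
  refine ⟨EE B n m C D, ?_, ?_⟩
  · intro s k
    unfold EE
    rw [← (Equiv.addRight ((n : ℤ) • k)).tsum_eq fun a => C a * D (s + ((n + m : ℕ) : ℤ) • k - a) *
      WW B n m a (s + ((n + m : ℕ) : ℤ) • k), ← tsum_mul_left]
    refine tsum_congr fun a => ?_
    show C (a + (n : ℤ) • k) * D (s + ((n + m : ℕ) : ℤ) • k - (a + (n : ℤ) • k)) *
      WW B n m (a + (n : ℤ) • k) (s + ((n + m : ℕ) : ℤ) • k) = _
    have h1 : s + ((n + m : ℕ) : ℤ) • k - (a + (n : ℤ) • k) = (s - a) + (m : ℤ) • k := by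
      push_cast
      rw [add_smul]
      abel
    rw [WW_shift hB.1 hn hm, h1, hC, hD, dot_add_right, mul_add, Complex.exp_add]
    ring
  · have hc := h g B hB n hn t C hC
    have hd := h g B hB m hm t' D hD
    funext x
    have s1 := summable_norm_Fs hc x
    have s2 := summable_norm_Fs hd x
    show (∑' s, co B n C s * Complex.exp (2 * Real.pi * dot s x)) *
      (∑' s, co B m D s * Complex.exp (2 * Real.pi * dot s x)) = ∑' s, co B (n + m) (EE B n m C D) s *
        Complex.exp (2 * Real.pi * dot s x)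
    rw [tsum_mul_tsum_of_summable_norm s1 s2]
    have s3 := summable_mul_of_summable_norm s1 s2
    rw [← (prE g).tsum_eq fun z : Lat g × Lat g =>
      (co B n C z.1 * Complex.exp (2 * Real.pi * dot z.1 x)) *
        (co B m D z.2 * Complex.exp (2 * Real.pi * dot z.2 x))]
    have s4 := (prE g).summable_iff.2 s3
    refine (Summable.tsum_prod s4).trans ?_
    refine tsum_congr fun s => ?_
    rw [co_EE, ← tsum_mul_right]
    refine tsum_congr fun a => ?_
    show co B n C a * Complex.exp (2 * Real.pi * dot a x) *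
      (co B m D (s - a) * Complex.exp (2 * Real.pi * dot (s - a) x)) = _
    have h5 : Complex.exp (2 * Real.pi * dot s x) = Complex.exp (2 * Real.pi * dot a x) *
        Complex.exp (2 * Real.pi * dot (s - a) x) := by
      rw [← Complex.exp_add]
      congr 1
      rw [dot_sub_left]
      ring
    rw [h5]
    ring

end Pool.Agent.L7h53.TH
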