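import Pool.Agent.L7h53.TH.Bas

/-!
# Project TH, part QPT: quasi-periodicity
-/

set_option autoImplicit false

namespace Pool.Agent.L7h53.TH

open Finset
open Pool.Agent.Results.MP_e16cda_ag.ThreeMomentsFail
open Pool.Agent.L7h93.TH

theorem Fs_Im {g : ℕ} (c : Lat g → ℂ) (x : Sp g) (m : Lat g) : Fs c (x + Im m) = Fs c x := by
  unfold Fs
  refine tsum_congr fun s => ?_
  congr 1
  have h1 : dot s (Im m) = Complex.I * ((∑ i, s i * m i : ℤ) : ℂ) := by
    unfold dot Im
    push_cast
    rw [Finset.mul_sum]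
    refine Finset.sum_congr rfl fun i _ => ?_
    ring
  rw [dot_add_right, h1, mul_add, Complex.exp_add]
  have h2 : Complex.exp (2 * Real.pi * (Complex.I * ((∑ i, s i * m i : ℤ) : ℂ))) = 1 := by
    rw [Complex.exp_eq_one_iff]
    exact ⟨∑ i, s i * m i, by ring⟩
  rw [h2, mul_one]

theorem dot_Bm {g : ℕ} (B : Matrix (Fin g) (Fin g) ℂ) (s m : Lat g) :
    dot s (Bm B m) = bil B s m := by
  unfold dot Bm bil
  refine Finset.sum_congr rfl fun i _ => ?_
  rw [Finset.mul_sum]
  refine Finset.sum_congr rfl fun j _ => ?_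
  ring

theorem s_QPT (h : S_DEC) (h1 : S_DV) : S_QPT := by
  intro g B hB x v m
  refine ⟨⟨Fs_Im _ x m, Fs_Im _ x m⟩, Complex.exp (Real.pi * Q B m + 2 * Real.pi * dot m x),
    Complex.exp_ne_zero _, ?_, ?_⟩
  · unfold th Fs
    rw [← (Equiv.addRight m).tsum_eq fun s => co B 1 (fun _ => 1) s *
      Complex.exp (2 * Real.pi * dot s (x + Bm B m)), ← tsum_mul_left]
    refine tsum_congr fun s => ?_
    show co B 1 (fun _ => 1) (s + m) * Complex.exp (2 * Real.pi * dot (s + m) (x + Bm B m)) = _
    unfold co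
    rw [one_mul, one_mul, ← Complex.exp_add, ← Complex.exp_add, ← Complex.exp_add]
    congr 1
    rw [dot_add_right, dot_Bm, dot_add_left, bil_add_left, Q_add hB.1]
    have h2 : bil B m m = Q B m := rfl
    rw [h2]
    push_cast
    ring
  · have hD : Dec (co B 1 fun _ => 1) := h g B hB 1 le_rfl 0 _ qp_one
    have s1 := summable_Fs (h1 g _ hD v 1) x
    have s2 := summable_Fs hD x
    unfold thv th Fs
    rw [← tsum_mul_left, ← s1.tsum_add (s2.mul_left _), ← tsum_mul_left,
      ← (Equiv.addRight m).tsum_eq fun s => dv v 1 (co B 1 fun _ => 1) s *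
        Complex.exp (2 * Real.pi * dot s (x + Bm B m))]
    refine tsum_congr fun s => ?_
    show dv v 1 (co B 1 fun _ => 1) (s + m) *
      Complex.exp (2 * Real.pi * dot (s + m) (x + Bm B m)) = _
    unfold dv co
    rw [one_mul, one_mul, pow_one, pow_one, mul_assoc, ← Complex.exp_add, dot_add_right, dot_Bm,
      dot_add_left, dot_add_left, bil_add_left, Q_add hB.1]
    have h2 : bil B m m = Q B m := rfl
    rw [h2]
    have h3 : Complex.exp (-(Real.pi / (1 : ℕ)) * (Q B s + 2 * bil B s m + Q B m) +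
        2 * Real.pi * (dot s x + dot m x + (bil B s m + Q B m))) =
        Complex.exp (Real.pi * Q B m + 2 * Real.pi * dot m x) *
          (Complex.exp (-(Real.pi / (1 : ℕ)) * Q B s) * Complex.exp (2 * Real.pi * dot s x)) := by
      rw [← Complex.exp_add, ← Complex.exp_add]
      congr 1
      push_cast
      ring
    rw [h3]
    ring

end Pool.Agent.L7h53.TH
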